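import Pool.Agent.helper12.PFS.Spec

/-!
# Row UNI: the number of solutions of a linear equation
-/

set_option autoImplicit false

namespace Pool.Agent.PFS

theorem UNI : UNI_stmt := by
  classical
  intro E F V _ _ _ _ _ k y hk
  obtain ⟨e₀, he₀⟩ := hk
  have hs : ∀ (c : E → V) (v : V), ∑ e, k e • (c + (Pi.single e₀ v : E → V)) e = ∑ e, k e • c e + k e₀ • v := by
    intro c v
    have h1 : ∀ e, k e • (c + (Pi.single e₀ v : E → V)) e = k e • c e + k e • (Pi.single e₀ v : E → V) e := by
      intro e
      rw [Pi.add_apply, smul_add]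
    simp_rw [h1]
    rw [Finset.sum_add_distrib]
    congr 1
    rw [Finset.sum_eq_single e₀]
    · rw [Pi.single_eq_same]
    · intro b _ hb
      rw [Pi.single_eq_of_ne hb, smul_zero]
    · intro h
      exact absurd (Finset.mem_univ _) h
  let Φ : {c : E → V // ∑ e, k e • c e = y} × V → (E → V) := fun p => p.1.1 + (Pi.single e₀ p.2 : E → V)
  have hΦ : Function.Bijective Φ := by
    constructor
    · rintro ⟨⟨c, hc⟩, v⟩ ⟨⟨c', hc'⟩, v'⟩ h
      have h0 : c + (Pi.single e₀ v : E → V) = c' + (Pi.single e₀ v' : E → V) := h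
      have h1 := hs c v
      rw [h0, hs c' v', hc, hc'] at h1
      have h2 : v' = v := by
        have h3 := add_left_cancel h1
        have h4 := congrArg (fun w => (k e₀)⁻¹ • w) h3
        simpa [smul_smul, inv_mul_cancel₀ he₀] using h4
      subst h2
      have h5 := add_right_cancel h0
      subst h5
      rfl
    · intro c'
      set v : V := (k e₀)⁻¹ • (∑ e, k e • c' e - y) with hv
      have h1 := hs (c' - (Pi.single e₀ v : E → V)) v
      rw [sub_add_cancel] at h1
      have h2 : k e₀ • v = ∑ e, k e • c' e - y := by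
        rw [hv, smul_smul, mul_inv_cancel₀ he₀, one_smul]
      rw [h2] at h1
      refine ⟨(⟨c' - (Pi.single e₀ v : E → V), ?_⟩, v), sub_add_cancel _ _⟩
      have h3 : ∑ e, k e • (c' - (Pi.single e₀ v : E → V)) e =
          ∑ e, k e • c' e - (∑ e, k e • c' e - y) := eq_sub_of_add_eq h1.symm
      rw [h3]
      abel
  have h1 := Nat.card_congr (Equiv.ofBijective Φ hΦ)
  rw [Nat.card_prod, Nat.card_fun, Nat.card_eq_fintype_card (α := E)] at h1
  exact h1

end Pool.Agent.PFS
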